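import Mathlib
import Pool.Agent.Helper18.PGL3Defs
import Pool.Agent.Helper18.PGL3Main

/-!
# Laurentness in triangulation charts versus all cluster charts for PGL₃

All definitions used by the statement are in `Pool/Agent/Helper18/PGL3Defs.lean`.
-/

set_option autoImplicit false

namespace Pool.Agent.Results.MP_e62c8e_ag.LaurentDichotomy

open Pool.Agent.Helper18.PGL3

/-- **Complete answer to Q1.**  Let `Δ₀` be an ideal triangulation, without self-folded triangles,
of a connected punctured surface `S`, and consider rational functions in the Fock–Goncharov
coordinates of `Δ₀`.  Every `f` that is a Laurent polynomial in the coordinates of every ideal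
triangulation (reachable from `Δ₀` by flips through triangulations without self-folded triangles)
is a Laurent polynomial in the coordinates of every cluster chart if and only if `S` is not the
thrice-punctured sphere.  The thrice-punctured sphere has such a triangulation, so that the answer
to the question for all punctured surfaces is negative, and this is the only exception. -/
theorem result :
    (∀ (H T : Type) [Fintype H] [DecidableEq H] [Fintype T] [DecidableEq T]
      (Δ₀ : IdealTriangulation H T), Δ₀.Connected →
      ((∀ f : RatFun (H ⊕ T), Δ₀.RegularOnTriangulationCharts f → Δ₀.RegularOnClusterCharts f) ↔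
        ¬ Δ₀.IsThricePuncturedSphere)) ∧
    (∃ Δ₀ : IdealTriangulation (Fin 6) (Fin 2), Δ₀.Connected ∧ Δ₀.IsThricePuncturedSphere) :=
  ⟨fun _ _ _ _ _ _ Δ₀ hc => Δ₀.dichotomy hc,
    sphere03, sphere03_connected, sphere03_isThricePuncturedSphere⟩

end Pool.Agent.Results.MP_e62c8e_ag.LaurentDichotomy
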